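import Pool.Agent.Helper19K9.Su.Bx7

/-!
# MP_cda23d_nt: Serre uniformity with polylogarithmically many exceptions above the square root of the
logarithm of the height

For every `D ≥ 1` there is a constant `C` such that for all `X ≥ 3`, `P ≥ 1` and `N ≥ max (59, D)`, among
the algebraic numbers `j` of degree at most `D` and height at most `X` at most

* `C (P log X) ^ C X ^ (10 D³ / (N (N - 1)))` are the invariant of an elliptic curve `E` over a number
  field `K` of degree at most `D` such that for some prime `p` with `N ≤ p ≤ P` no line of `E[p]` is stable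
  under `Gal(K̄/K)` and the image of `Gal(K̄/K)` in `Aut(E[p])` does not contain `SL₂(𝔽_p)`; these are at
  most `C (P log X) ^ C` if `N (N - 1) ≥ log X`;
* `C (P log X) ^ C X ^ (5 D³ / N)` are the invariant of such a curve for which the image does not contain
  `SL₂(𝔽_p)` for some prime `p` with `N ≤ p ≤ P`.

For `D = 1` these are the elliptic curves over `ℚ`.  There the pairs of nonzero integers `A`, `B` with
`|A| ≤ T²`, `|B| ≤ T³` for which `y² = x³ + Ax + B` has these properties are at most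
`C (P log T) ^ C T ^ (1 + 60 / (N (N - 1)))` and `C (P log T) ^ C T ^ (1 + 30 / N)`.

(Known and not used: for `E` over `ℚ` without complex multiplication and `p > 37`, if the image does not
contain `SL₂(𝔽_p)` it is contained in the normalizer of a nonsplit Cartan subgroup, so that no line is
stable (Mazur; Bilu, Parent and Rebolledo), and `p` is at most a constant times a power of `log X` (Masser
and Wüstholz).)

Proof.  The curves `y² = x³ - 3t(t - 1728)x - 2t(t - 1728)²` have invariant `t`.  Let `G` be the Galois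
group of the `x`-coordinates of the points of order `p` over `ℚ(t)`; it contains `SL₂(𝔽_p)/±1`.  If a
specialisation at `t = j` has an image which does not contain `SL₂(𝔽_p)`, then the order of the
decomposition group `D` is prime to `p` or `D` fixes a line.  In the first case `D ∩ SL₂(𝔽_p)` has order at
most `2 (p + 1)`, by counting the orbits on the projective line over the algebraic closure with nontrivial
stabilizers, so that `D` has index at least `p (p - 1) / 2` in `G`.  In both cases `D` is generated by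
seven elements: the preimage of `D` in `GL₂(𝔽_p)` has a subgroup of index at most `2` which fixes a point
of the projective line, or its scalars have index at most `60`.  So there are at most `p ^ 47` groups `D`
and resolvents `F(t, Y)`, which have degree at least `p`, in the first case at least `p (p - 1) / 2`, are
irreducible over `ℚ(t)`, and have a simple root in `K` at `t = j`.  For one resolvent the `j` are counted
by auxiliary polynomials.
-/

set_option autoImplicit false

open WeierstrassCurve Polynomial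

namespace Pool.Agent.Results.MP_cda23d_nt.PolylogExceptions

section
variable {K : Type} [Field K]

/-- The curve `y² = x³ + Ax + B`. -/
def curve (A B : K) : WeierstrassCurve K := ⟨0, 0, 0, A, B⟩

/-- Its `j`-invariant. -/
def invariant (A B : K) : K := 1728 * (4 * A ^ 3) / (4 * A ^ 3 + 27 * B ^ 2)

open scoped Classical in
/-- The group of its points over the algebraic closure. -/
abbrev Points (A B : K) : Type := ((curve A B).baseChange (AlgebraicClosure K)).toAffine.Point

open scoped Classical in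
/-- The action of an automorphism `σ` of the algebraic closure on the points. -/
noncomputable def galois (A B : K) (σ : AlgebraicClosure K ≃ₐ[K] AlgebraicClosure K) :
    Points A B →+ Points A B :=
  WeierstrassCurve.Affine.Point.map (W' := curve A B) (R := K) (S := K)
    (σ : AlgebraicClosure K →ₐ[K] AlgebraicClosure K)

open scoped Classical in
/-- The points `P` and `Q` form a basis of the `p`-torsion. -/
def IsBasis (A B : K) (p : ℕ) (P Q : Points A B) : Prop :=
  p • P = 0 ∧ p • Q = 0 ∧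
    (∀ R : Points A B, p • R = 0 → ∃ m n : ℤ, R = m • P + n • Q) ∧
    ∀ m n : ℤ, m • P + n • Q = 0 → (p : ℤ) ∣ m ∧ (p : ℤ) ∣ n

open scoped Classical in
/-- The image of the Galois group in the automorphism group of the `p`-torsion contains all
automorphisms of determinant `1`: there is a basis of the `p`-torsion in which every matrix of
determinant `1` modulo `p` is the matrix of some `σ`. -/
def ContainsSL (A B : K) (p : ℕ) : Prop :=
  ∃ P Q : Points A B, IsBasis A B p P Q ∧
    ∀ a b c d : ℤ, (p : ℤ) ∣ a * d - b * c - 1 →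
      ∃ σ : AlgebraicClosure K ≃ₐ[K] AlgebraicClosure K,
        galois A B σ P = a • P + c • Q ∧ galois A B σ Q = b • P + d • Q

open scoped Classical in
/-- No line of the `p`-torsion is stable under the Galois group. -/
def NoStableLine (A B : K) (p : ℕ) : Prop :=
  ∀ P : Points A B, p • P = 0 → P ≠ 0 →
    ∃ σ : AlgebraicClosure K ≃ₐ[K] AlgebraicClosure K, ∀ m : ℤ, galois A B σ P ≠ m • P

end

/-- The complex number `j` is a root of a nonzero integer polynomial of degree at most `D` with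
coefficients at most `X`. -/
def HeightLE (D : ℕ) (X : ℝ) (j : ℂ) : Prop :=
  ∃ f : ℤ[X], f ≠ 0 ∧ f.natDegree ≤ D ∧ (∀ i, |(f.coeff i : ℝ)| ≤ X) ∧ aeval j f = 0

/-- The `j` of degree at most `D` and height at most `X` which are the invariant of a curve over a
number field of degree at most `D` whose image does not contain all automorphisms of determinant `1` of
the `p`-torsion for some prime `p` with `N ≤ p ≤ P`. -/
def Exceptions (D N P : ℕ) (X : ℝ) : Set ℂ :=
  {j | HeightLE D X j ∧ ∃ p : ℕ, p.Prime ∧ N ≤ p ∧ p ≤ P ∧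
    ∃ (K : Type) (_ : Field K) (_ : NumberField K) (σ : K →+* ℂ) (A B : K),
      Module.finrank ℚ K ≤ D ∧ 4 * A ^ 3 + 27 * B ^ 2 ≠ 0 ∧ σ (invariant A B) = j ∧
        ¬ ContainsSL A B p}

/-- The same, with no stable line of the `p`-torsion. -/
def IrreducibleExceptions (D N P : ℕ) (X : ℝ) : Set ℂ :=
  {j | HeightLE D X j ∧ ∃ p : ℕ, p.Prime ∧ N ≤ p ∧ p ≤ P ∧
    ∃ (K : Type) (_ : Field K) (_ : NumberField K) (σ : K →+* ℂ) (A B : K),
      Module.finrank ℚ K ≤ D ∧ 4 * A ^ 3 + 27 * B ^ 2 ≠ 0 ∧ σ (invariant A B) = j ∧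
        ¬ ContainsSL A B p ∧ NoStableLine A B p}

/-- The pairs of nonzero integers `A`, `B` with `|A| ≤ T²`, `|B| ≤ T³`, `4A³ + 27B² ≠ 0` such that for
some prime `p` with `N ≤ p ≤ P` the image for `y² = x³ + Ax + B` over `ℚ` does not contain all
automorphisms of determinant `1` of the `p`-torsion. -/
def ExceptionalPairs (N P : ℕ) (T : ℝ) : Set (ℤ × ℤ) :=
  {x | |(x.1 : ℝ)| ≤ T ^ 2 ∧ |(x.2 : ℝ)| ≤ T ^ 3 ∧ x.1 ≠ 0 ∧ x.2 ≠ 0 ∧
    4 * x.1 ^ 3 + 27 * x.2 ^ 2 ≠ 0 ∧
    ∃ p : ℕ, p.Prime ∧ N ≤ p ∧ p ≤ P ∧ ¬ ContainsSL (x.1 : ℚ) (x.2 : ℚ) p}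

/-- The same, with no stable line of the `p`-torsion. -/
def IrreduciblePairs (N P : ℕ) (T : ℝ) : Set (ℤ × ℤ) :=
  {x | |(x.1 : ℝ)| ≤ T ^ 2 ∧ |(x.2 : ℝ)| ≤ T ^ 3 ∧ x.1 ≠ 0 ∧ x.2 ≠ 0 ∧
    4 * x.1 ^ 3 + 27 * x.2 ^ 2 ≠ 0 ∧
    ∃ p : ℕ, p.Prime ∧ N ≤ p ∧ p ≤ P ∧ ¬ ContainsSL (x.1 : ℚ) (x.2 : ℚ) p ∧
      NoStableLine (x.1 : ℚ) (x.2 : ℚ) p}

theorem hasSL_of {K : Type} [Field K] [CharZero K] {A B : K} {p : ℕ} (hp : p.Prime)
    (hD : 4 * A ^ 3 + 27 * B ^ 2 ≠ 0) (hno : ¬ ContainsSL A B p) :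
    ¬ Pool.Agent.Y673.SL.HasSL A B p := by
  rintro ⟨P, Q, h1, h2, h3, h4, h5⟩
  obtain ⟨h6, h7⟩ := Pool.Agent.Y673.SL.basis hD hp h1 h2 h3 h4
  exact hno ⟨P, Q, ⟨h1, h2, h6, h7⟩, h5⟩

theorem inv_eq {K : Type} [Field K] (A B : K) : Pool.Agent.Y673.Loc.jv A B = invariant A B := by
  unfold Pool.Agent.Y673.Loc.jv invariant
  ring

/-- **Few exceptions.**  For every `D ≥ 1` there is `C` such that for `X ≥ 3`, `P ≥ 1` and
`N ≥ max (59, D)` there are at most `C (P log X) ^ C X ^ (5 D³ / N)` exceptions of height at most `X`, and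
at most `C (P log X) ^ C X ^ (10 D³ / (N (N - 1)))` exceptions without stable lines, which is at most
`C (P log X) ^ C` if `log X ≤ N (N - 1)`; and over `ℚ`, for `T ≥ 3`, there are at most
`C (P log T) ^ C T ^ (1 + 30 / N)` exceptional pairs, and at most
`C (P log T) ^ C T ^ (1 + 60 / (N (N - 1)))` without stable lines. -/
theorem result :
    (∀ D : ℕ, 1 ≤ D → ∃ C : ℕ, ∀ N P : ℕ, 59 ≤ N → D ≤ N → 1 ≤ P → ∀ X : ℝ, 3 ≤ X →
      ((Exceptions D N P X).Finite ∧ ((Exceptions D N P X).ncard : ℝ) ≤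
        C * (P * Real.log X) ^ C * X ^ (5 * (D : ℝ) ^ 3 / N)) ∧
      ((IrreducibleExceptions D N P X).Finite ∧ ((IrreducibleExceptions D N P X).ncard : ℝ) ≤
        C * (P * Real.log X) ^ C * X ^ (10 * (D : ℝ) ^ 3 / (N * (N - 1)))) ∧
      (Real.log X ≤ N * (N - 1) → ((IrreducibleExceptions D N P X).ncard : ℝ) ≤
        C * (P * Real.log X) ^ C)) ∧
    (∃ C : ℕ, ∀ N P : ℕ, 59 ≤ N → 1 ≤ P → ∀ T : ℝ, 3 ≤ T →
      ((ExceptionalPairs N P T).Finite ∧ ((ExceptionalPairs N P T).ncard : ℝ) ≤
        C * (P * Real.log T) ^ C * T ^ (1 + 30 / (N : ℝ))) ∧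
      ((IrreduciblePairs N P T).Finite ∧ ((IrreduciblePairs N P T).ncard : ℝ) ≤
        C * (P * Real.log T) ^ C * T ^ (1 + 60 / ((N : ℝ) * (N - 1))))) := by
  constructor
  · intro D hD
    obtain ⟨C, h⟩ := Pool.Agent.Helper19K9.Su.few7 hD
    obtain ⟨C', hC'⟩ := exists_nat_ge ((C : ℝ) * Real.exp (10 * (D : ℝ) ^ 3))
    refine ⟨max C C', fun N P hN hND hP X hX => ?_⟩
    obtain ⟨⟨f1, n1⟩, f2, n2⟩ := h N P hN hND hP X hX
    have s1 : Exceptions D N P X ⊆ Pool.Agent.Helper19K9.Su.ExQ7 False D N P X := by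
      rintro j ⟨hj, p, hp, hNp, hpP, K, i1, i2, σ, A, B, hK, hD, hσ, hno⟩
      exact ⟨hj, p, hp, hNp, hpP, K, i1, i2, σ, A, B, hK, hD, by rw [inv_eq, hσ],
        hasSL_of hp hD hno, fun hf => hf.elim⟩
    have s2 : IrreducibleExceptions D N P X ⊆ Pool.Agent.Helper19K9.Su.ExQ7 True D N P X := by
      rintro j ⟨hj, p, hp, hNp, hpP, K, i1, i2, σ, A, B, hK, hD, hσ, hno, hirr⟩
      exact ⟨hj, p, hp, hNp, hpP, K, i1, i2, σ, A, B, hK, hD, by rw [inv_eq, hσ],
        hasSL_of hp hD hno, fun _ => Pool.Agent.Helper19K9.Su.irr_of hirr⟩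
    have c1 : ((Exceptions D N P X).ncard : ℝ) ≤
        ((Pool.Agent.Helper19K9.Su.ExQ7 False D N P X).ncard : ℝ) := by
      exact_mod_cast Set.ncard_le_ncard s1 f1
    have c2 : ((IrreducibleExceptions D N P X).ncard : ℝ) ≤
        ((Pool.Agent.Helper19K9.Su.ExQ7 True D N P X).ncard : ℝ) := by
      exact_mod_cast Set.ncard_le_ncard s2 f2
    have hX0 : 0 < X := by linarith
    have hlog : 1 ≤ Real.log X := by
      rw [Real.le_log_iff_exp_le hX0]
      have := Real.exp_one_lt_d9
      linarith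
    have hPr : (1 : ℝ) ≤ P := by exact_mod_cast hP
    have hbase : 1 ≤ (P : ℝ) * Real.log X := one_le_mul_of_one_le_of_one_le hPr hlog
    have hpw : ((P : ℝ) * Real.log X) ^ C ≤ (P * Real.log X) ^ (max C C') :=
      pow_le_pow_right₀ hbase (le_max_left _ _)
    have hCm : (C : ℝ) ≤ (max C C' : ℕ) := by exact_mod_cast le_max_left C C'
    have hC0 : (0 : ℝ) ≤ C := Nat.cast_nonneg _
    refine ⟨⟨f1.subset s1, c1.trans (n1.trans ?_)⟩, ⟨f2.subset s2, c2.trans (n2.trans ?_)⟩,
      fun hlogN => c2.trans (n2.trans ?_)⟩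
    · gcongr
    · gcongr
    · have hNr : (59 : ℝ) ≤ N := by exact_mod_cast hN
      have hNN : (0 : ℝ) < N * (N - 1) := by nlinarith
      have h1 : X ^ (10 * (D : ℝ) ^ 3 / (N * (N - 1))) ≤ Real.exp (10 * (D : ℝ) ^ 3) := by
        rw [Real.rpow_def_of_pos hX0]
        apply Real.exp_le_exp.2
        rw [mul_div_assoc', div_le_iff₀ hNN]
        have h2 : 0 ≤ 10 * (D : ℝ) ^ 3 := by positivity
        nlinarith
      calc (C : ℝ) * (P * Real.log X) ^ C * X ^ (10 * (D : ℝ) ^ 3 / (N * (N - 1))) ≤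
          C * (P * Real.log X) ^ (max C C') * Real.exp (10 * (D : ℝ) ^ 3) := by gcongr
        _ = (C * Real.exp (10 * (D : ℝ) ^ 3)) * (P * Real.log X) ^ (max C C') := by ring
        _ ≤ (max C C' : ℕ) * (P * Real.log X) ^ (max C C') := by
            apply mul_le_mul_of_nonneg_right _ (by positivity)
            refine hC'.trans ?_
            exact_mod_cast le_max_right C C'
  · obtain ⟨C, h⟩ := Pool.Agent.Helper19K9.Su.few_box7
    refine ⟨C, fun N P hN hP T hT => ?_⟩
    obtain ⟨⟨f1, n1⟩, f2, n2⟩ := h N P hN hP T hT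
    have s1 : ExceptionalPairs N P T ⊆ Pool.Agent.Helper19K9.Su.Bx7 False N P T := by
      rintro x ⟨a1, a2, a3, a4, a5, p, hp, hNp, hpX, hno⟩
      exact ⟨a1, a2, a3, a4, a5, p, hp, hNp, hpX, hasSL_of hp (by exact_mod_cast a5) hno,
        fun hf => hf.elim⟩
    have s2 : IrreduciblePairs N P T ⊆ Pool.Agent.Helper19K9.Su.Bx7 True N P T := by
      rintro x ⟨a1, a2, a3, a4, a5, p, hp, hNp, hpX, hno, hirr⟩
      exact ⟨a1, a2, a3, a4, a5, p, hp, hNp, hpX, hasSL_of hp (by exact_mod_cast a5) hno,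
        fun _ => Pool.Agent.Helper19K9.Su.irr_of hirr⟩
    have c1 : ((ExceptionalPairs N P T).ncard : ℝ) ≤
        ((Pool.Agent.Helper19K9.Su.Bx7 False N P T).ncard : ℝ) := by
      exact_mod_cast Set.ncard_le_ncard s1 f1
    have c2 : ((IrreduciblePairs N P T).ncard : ℝ) ≤
        ((Pool.Agent.Helper19K9.Su.Bx7 True N P T).ncard : ℝ) := by
      exact_mod_cast Set.ncard_le_ncard s2 f2
    exact ⟨⟨f1.subset s1, c1.trans n1⟩, f2.subset s2, c2.trans n2⟩

end Pool.Agent.Results.MP_cda23d_nt.PolylogExceptions
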