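import Pool.Agent.Helper19K9.Mp.Bx

/-!
# MP_cda23d_nt: the product of all the exceptional primes of an elliptic curve

Call a prime `p ≥ 59` exceptional for an elliptic curve `E` over a number field `K` if no line of `E[p]` is
stable under `Gal(K̄/K)` and the image of `Gal(K̄/K)` in `Aut(E[p])` does not contain `SL₂(𝔽_p)`.  For
every `D ≥ 1` there is a constant `C` such that for all `X ≥ 3`, `P ≥ 1` and `M > D²`, among the algebraic
numbers `j` of degree at most `D` and height at most `X` at most `C (P log X) ^ C X ^ (5 D³ / M)` are the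
invariant of an elliptic curve over a number field of degree at most `D` for which the product of the
numbers `p (p - 1) / 2` over ALL exceptional primes `p ≤ P` is at least `M`.  If `M ≥ log X` these are at
most `C (P log X) ^ C`.

So for every `κ` all but `(log X) ^ C` of these `j` have the property that the product of the
`p (p - 1) / 2` over all exceptional primes `p ≤ (log X) ^ κ` is less than `log X`: there are fewer than
`(log log X) / 7` of them, and for every `k` fewer than `k` of them are larger than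
`2 (log X) ^ (1 / (2 k))`.  Over `ℚ` the pairs of nonzero integers `A`, `B` with `|A| ≤ T²`, `|B| ≤ T³`
for which the product is at least `M` for `y² = x³ + Ax + B` are at most
`C (P log T) ^ C T ^ (1 + 30 / M)`, and at most `C (P log T) ^ C T` if `M ≥ log T`.

(Known and not used: for `E` over `ℚ` without complex multiplication and `p > 37`, if the image does not
contain `SL₂(𝔽_p)` it is contained in the normalizer of a nonsplit Cartan subgroup, so that no line is
stable (Mazur; Bilu, Parent and Rebolledo), and `p` is at most a constant times a power of `log X` (Masser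
and Wüstholz).)

Proof.  Let `T` be a set of exceptional primes of one curve with invariant `j`, with product `Q`.  For
`p ∈ T` there is a resolvent, irreducible over `ℚ(t)`, of degree at least `p (p - 1) / 2`, with a root `f_p`
integral over `ℤ[t]` which specialises at `t = j` to a simple root in `K`; there are at most `p ^ 47`
possibilities for `f_p` (`PolylogExceptions`).  A combination of the `f_p` with coefficients `c ^ p`,
`c ≤ Q ^ 5`, generates the compositum and specialises to a simple root of its minimal polynomial.  The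
degree of the compositum is at least the product of the `p (p - 1) / 2`: if `q` is the largest prime of `T`,
the Galois group of the `q`-torsion over the field of the other torsion points is a normal subgroup of index
prime to `q` of the Galois group over `ℚ(t)`, as the order of `GL₂(𝔽_p)` is prime to `q` for `p < q`.  So
it has order divisible by `q` and no stable line, it contains `SL₂(𝔽_q)/±1`, and the stabilizer of `f_q`
has index at least `q (q - 1) / 2` in it.  So there are at most `Q ^ 53` resolvents of large degree; the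
`j` are counted for each of them by auxiliary polynomials.
-/

set_option autoImplicit false

open WeierstrassCurve Polynomial

namespace Pool.Agent.Results.MP_cda23d_nt.ProductOfExceptionalPrimes

section
variable {K : Type} [Field K]

/-- The curve `y² = x³ + Ax + B`. -/
def curve (A B : K) : WeierstrassCurve K := ⟨0, 0, 0, A, B⟩

/-- Its `j`-invariant. -/
def invariant (A B : K) : K := 1728 * (4 * A ^ 3) / (4 * A ^ 3 + 27 * B ^ 2)

open scoped Classical in
/-- The group of its points over the algebraic closure. -/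
abbrev Points (A B : K) : Type := ((curve A B).baseChange (AlgebraicClosure K)).toAffine.Point

open scoped Classical in
/-- The action of an automorphism `σ` of the algebraic closure on the points. -/
noncomputable def galois (A B : K) (σ : AlgebraicClosure K ≃ₐ[K] AlgebraicClosure K) :
    Points A B →+ Points A B :=
  WeierstrassCurve.Affine.Point.map (W' := curve A B) (R := K) (S := K)
    (σ : AlgebraicClosure K →ₐ[K] AlgebraicClosure K)

open scoped Classical in
/-- The points `P` and `Q` form a basis of the `p`-torsion. -/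
def IsBasis (A B : K) (p : ℕ) (P Q : Points A B) : Prop :=
  p • P = 0 ∧ p • Q = 0 ∧
    (∀ R : Points A B, p • R = 0 → ∃ m n : ℤ, R = m • P + n • Q) ∧
    ∀ m n : ℤ, m • P + n • Q = 0 → (p : ℤ) ∣ m ∧ (p : ℤ) ∣ n

open scoped Classical in
/-- The image of the Galois group in the automorphism group of the `p`-torsion contains all
automorphisms of determinant `1`: there is a basis of the `p`-torsion in which every matrix of
determinant `1` modulo `p` is the matrix of some `σ`. -/
def ContainsSL (A B : K) (p : ℕ) : Prop :=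
  ∃ P Q : Points A B, IsBasis A B p P Q ∧
    ∀ a b c d : ℤ, (p : ℤ) ∣ a * d - b * c - 1 →
      ∃ σ : AlgebraicClosure K ≃ₐ[K] AlgebraicClosure K,
        galois A B σ P = a • P + c • Q ∧ galois A B σ Q = b • P + d • Q

open scoped Classical in
/-- No line of the `p`-torsion is stable under the Galois group. -/
def NoStableLine (A B : K) (p : ℕ) : Prop :=
  ∀ P : Points A B, p • P = 0 → P ≠ 0 →
    ∃ σ : AlgebraicClosure K ≃ₐ[K] AlgebraicClosure K, ∀ m : ℤ, galois A B σ P ≠ m • P

open scoped Classical in
/-- The exceptional primes up to `P`: the primes `p` with `59 ≤ p ≤ P` such that no line of the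
`p`-torsion is stable and the image does not contain all automorphisms of determinant `1`. -/
noncomputable def exceptionalPrimes (A B : K) (P : ℕ) : Finset ℕ :=
  (Finset.range (P + 1)).filter fun p =>
    p.Prime ∧ 59 ≤ p ∧ ¬ ContainsSL A B p ∧ NoStableLine A B p

/-- The product of the numbers `p (p - 1) / 2` over all exceptional primes `p ≤ P`. -/
noncomputable def product (A B : K) (P : ℕ) : ℕ := ∏ p ∈ exceptionalPrimes A B P, p * (p - 1) / 2

end

/-- The complex number `j` is a root of a nonzero integer polynomial of degree at most `D` with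
coefficients at most `X`. -/
def HeightLE (D : ℕ) (X : ℝ) (j : ℂ) : Prop :=
  ∃ f : ℤ[X], f ≠ 0 ∧ f.natDegree ≤ D ∧ (∀ i, |(f.coeff i : ℝ)| ≤ X) ∧ aeval j f = 0

/-- The `j` of degree at most `D` and height at most `X` which are the invariant of a curve over a
number field of degree at most `D` such that the product over the exceptional primes up to `P` is at
least `M`. -/
def LargeProduct (D M P : ℕ) (X : ℝ) : Set ℂ :=
  {j | HeightLE D X j ∧
    ∃ (K : Type) (_ : Field K) (_ : NumberField K) (σ : K →+* ℂ) (A B : K),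
      Module.finrank ℚ K ≤ D ∧ 4 * A ^ 3 + 27 * B ^ 2 ≠ 0 ∧ σ (invariant A B) = j ∧
        M ≤ product A B P}

/-- The pairs of nonzero integers `A`, `B` with `|A| ≤ T²`, `|B| ≤ T³`, `4A³ + 27B² ≠ 0` such that for
`y² = x³ + Ax + B` over `ℚ` the product over the exceptional primes up to `P` is at least `M`. -/
def LargeProductPairs (M P : ℕ) (T : ℝ) : Set (ℤ × ℤ) :=
  {x | |(x.1 : ℝ)| ≤ T ^ 2 ∧ |(x.2 : ℝ)| ≤ T ^ 3 ∧ x.1 ≠ 0 ∧ x.2 ≠ 0 ∧
    4 * x.1 ^ 3 + 27 * x.2 ^ 2 ≠ 0 ∧ M ≤ product (x.1 : ℚ) (x.2 : ℚ) P}

theorem hasSL_of {K : Type} [Field K] [CharZero K] {A B : K} {p : ℕ} (hp : p.Prime)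
    (hD : 4 * A ^ 3 + 27 * B ^ 2 ≠ 0) (hno : ¬ ContainsSL A B p) :
    ¬ Pool.Agent.Y673.SL.HasSL A B p := by
  rintro ⟨P, Q, h1, h2, h3, h4, h5⟩
  obtain ⟨h6, h7⟩ := Pool.Agent.Y673.SL.basis hD hp h1 h2 h3 h4
  exact hno ⟨P, Q, ⟨h1, h2, h6, h7⟩, h5⟩

theorem inv_eq {K : Type} [Field K] (A B : K) : Pool.Agent.Y673.Loc.jv A B = invariant A B := by
  unfold Pool.Agent.Y673.Loc.jv invariant
  ring

theorem product_le {K : Type} [Field K] [CharZero K] {A B : K} (hD : 4 * A ^ 3 + 27 * B ^ 2 ≠ 0)
    (P : ℕ) : product A B P ≤ ∏ p ∈ Pool.Agent.Helper19K9.Mp.AllE A B P, p * (p - 1) / 2 := by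
  classical
  unfold product
  apply Finset.prod_le_prod_of_subset_of_one_le'
  · intro p hp
    unfold exceptionalPrimes at hp
    unfold Pool.Agent.Helper19K9.Mp.AllE
    rw [Finset.mem_filter] at hp ⊢
    exact ⟨hp.1, hp.2.1, hp.2.2.1, hasSL_of hp.2.1 hD hp.2.2.2.1,
      Pool.Agent.Helper19K9.Su.irr_of hp.2.2.2.2⟩
  · intro p hp _
    unfold Pool.Agent.Helper19K9.Mp.AllE at hp
    rw [Finset.mem_filter] at hp
    have h59 := hp.2.2.1
    have := Pool.Agent.Helper19K9.Mp.wt_ge h59
    omega

theorem rpow_le {C : ℕ} {c L B Y : ℝ} (hB : 0 ≤ B) (hY : 0 < Y) (hc : 0 ≤ c) (hL : 0 < L)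
    (hlog : Real.log Y ≤ L) : (C : ℝ) * B * Y ^ (c / L) ≤ (C * Real.exp c) * B := by
  have h1 : Y ^ (c / L) ≤ Real.exp c := by
    rw [Real.rpow_def_of_pos hY]
    apply Real.exp_le_exp.2
    rw [mul_div_assoc', div_le_iff₀ hL, mul_comm]
    exact mul_le_mul_of_nonneg_left hlog hc
  have hC : (0 : ℝ) ≤ C := Nat.cast_nonneg _
  calc (C : ℝ) * B * Y ^ (c / L) ≤ C * B * Real.exp c := by gcongr
    _ = _ := by ring

/-- **The product of the exceptional primes.**  For every `D ≥ 1` there is `C` such that for `X ≥ 3`,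
`P ≥ 1` and `M > D²` there are at most `C (P log X) ^ C X ^ (5 D³ / M)` invariants of height at most `X` of
curves over number fields of degree at most `D` for which the product of the `p (p - 1) / 2` over the
exceptional primes up to `P` is at least `M`, and at most `C (P log X) ^ C` if `M ≥ log X`; and over `ℚ`,
for `T ≥ 3` and `M ≥ 5`, there are at most `C (P log T) ^ C T ^ (1 + 30 / M)` such pairs, and at most
`C (P log T) ^ C T` if `M ≥ log T`. -/
theorem result :
    (∀ D : ℕ, 1 ≤ D → ∃ C : ℕ, ∀ M P : ℕ, D ^ 2 < M → 1 ≤ P → ∀ X : ℝ, 3 ≤ X →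
      (LargeProduct D M P X).Finite ∧
      ((LargeProduct D M P X).ncard : ℝ) ≤
        C * (P * Real.log X) ^ C * X ^ (5 * (D : ℝ) ^ 3 / M) ∧
      (Real.log X ≤ M → ((LargeProduct D M P X).ncard : ℝ) ≤ C * (P * Real.log X) ^ C)) ∧
    (∃ C : ℕ, ∀ M P : ℕ, 5 ≤ M → 1 ≤ P → ∀ T : ℝ, 3 ≤ T →
      (LargeProductPairs M P T).Finite ∧
      ((LargeProductPairs M P T).ncard : ℝ) ≤
        C * (P * Real.log T) ^ C * T ^ (1 + 30 / (M : ℝ)) ∧
      (Real.log T ≤ M → ((LargeProductPairs M P T).ncard : ℝ) ≤ C * (P * Real.log T) ^ C * T)) := by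
  constructor
  · intro D hD
    obtain ⟨C, h⟩ := Pool.Agent.Helper19K9.Mp.few9 hD
    obtain ⟨C', hC'⟩ := exists_nat_ge ((C : ℝ) * Real.exp (5 * (D : ℝ) ^ 3))
    refine ⟨max C C', fun M P hM hP X hX => ?_⟩
    obtain ⟨f1, n1⟩ := h M P hM hP X hX
    have s1 : LargeProduct D M P X ⊆ Pool.Agent.Helper19K9.Mp.ExA D P M X := by
      rintro j ⟨hj, K, i1, i2, σ, A, B, hK, hD, hσ, hprod⟩
      exact ⟨hj, K, i1, i2, σ, A, B, hK, hD, by rw [inv_eq, hσ], hprod.trans (product_le hD P)⟩
    have c1 : ((LargeProduct D M P X).ncard : ℝ) ≤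
        ((Pool.Agent.Helper19K9.Mp.ExA D P M X).ncard : ℝ) := by
      exact_mod_cast Set.ncard_le_ncard s1 f1
    have hX0 : 0 < X := by linarith
    have hlog : 1 ≤ Real.log X := by
      rw [Real.le_log_iff_exp_le hX0]
      have := Real.exp_one_lt_d9
      linarith
    have hPr : (1 : ℝ) ≤ P := by exact_mod_cast hP
    have hbase : 1 ≤ (P : ℝ) * Real.log X := one_le_mul_of_one_le_of_one_le hPr hlog
    have hpw : ((P : ℝ) * Real.log X) ^ C ≤ (P * Real.log X) ^ (max C C') :=
      pow_le_pow_right₀ hbase (le_max_left _ _)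
    have hCm : (C : ℝ) ≤ (max C C' : ℕ) := by exact_mod_cast le_max_left C C'
    have hCm' : (C' : ℝ) ≤ (max C C' : ℕ) := by exact_mod_cast le_max_right C C'
    have hC0 : (0 : ℝ) ≤ C := Nat.cast_nonneg _
    refine ⟨f1.subset s1, c1.trans (n1.trans ?_), fun hlogM => c1.trans (n1.trans ?_)⟩
    · gcongr
    · refine (rpow_le (by positivity) hX0 (by positivity) (lt_of_lt_of_le (by linarith) hlogM)
        hlogM).trans ?_
      calc (C * Real.exp (5 * (D : ℝ) ^ 3)) * (P * Real.log X) ^ C ≤
          C' * (P * Real.log X) ^ C := by gcongr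
        _ ≤ _ := by gcongr
  · obtain ⟨C, h⟩ := Pool.Agent.Helper19K9.Mp.few_box9
    obtain ⟨C', hC'⟩ := exists_nat_ge ((C : ℝ) * Real.exp 30)
    refine ⟨max C C', fun M P hM hP T hT => ?_⟩
    obtain ⟨f1, n1⟩ := h M P hM hP T hT
    have s1 : LargeProductPairs M P T ⊆ Pool.Agent.Helper19K9.Mp.BxA P M T := by
      rintro x ⟨a1, a2, a3, a4, a5, hprod⟩
      exact ⟨a1, a2, a3, a4, a5, hprod.trans (product_le (by exact_mod_cast a5) P)⟩
    have c1 : ((LargeProductPairs M P T).ncard : ℝ) ≤
        ((Pool.Agent.Helper19K9.Mp.BxA P M T).ncard : ℝ) := by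
      exact_mod_cast Set.ncard_le_ncard s1 f1
    have hT0 : 0 < T := by linarith
    have hlog : 1 ≤ Real.log T := by
      rw [Real.le_log_iff_exp_le hT0]
      have := Real.exp_one_lt_d9
      linarith
    have hPr : (1 : ℝ) ≤ P := by exact_mod_cast hP
    have hbase : 1 ≤ (P : ℝ) * Real.log T := one_le_mul_of_one_le_of_one_le hPr hlog
    have hpw : ((P : ℝ) * Real.log T) ^ C ≤ (P * Real.log T) ^ (max C C') :=
      pow_le_pow_right₀ hbase (le_max_left _ _)
    have hCm : (C : ℝ) ≤ (max C C' : ℕ) := by exact_mod_cast le_max_left C C'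
    have hCm' : (C' : ℝ) ≤ (max C C' : ℕ) := by exact_mod_cast le_max_right C C'
    have hC0 : (0 : ℝ) ≤ C := Nat.cast_nonneg _
    refine ⟨f1.subset s1, c1.trans (n1.trans ?_), fun hlogM => c1.trans (n1.trans ?_)⟩
    · gcongr
    · rw [Real.rpow_add hT0, Real.rpow_one]
      have h1 := rpow_le (C := C) (c := 30) (L := M) (B := (P * Real.log T) ^ C * T) (Y := T)
        (by positivity) hT0 (by norm_num) (lt_of_lt_of_le (by linarith) hlogM) hlogM
      calc (C : ℝ) * (P * Real.log T) ^ C * (T * T ^ (30 / (M : ℝ))) =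
          C * ((P * Real.log T) ^ C * T) * T ^ (30 / (M : ℝ)) := by ring
        _ ≤ (C * Real.exp 30) * ((P * Real.log T) ^ C * T) := h1
        _ ≤ C' * ((P * Real.log T) ^ C * T) := by gcongr
        _ ≤ (max C C' : ℕ) * ((P * Real.log T) ^ (max C C') * T) := by gcongr
        _ = _ := by ring

end Pool.Agent.Results.MP_cda23d_nt.ProductOfExceptionalPrimes
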